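import Pool.Agent.ML61.Val

/-!
# Branches over a point of the line: escape, poles, regularity

`F a` are the unit functions along a branch (a point of the fibre over the field of Laurent
series), `u a` their exponents, `s` the coordinate of the line and `h` the horizontal component of
the logarithmic form: for the derivations `D` of the field of Laurent series
`∑ a, u a * (D (F a) / F a) = h * (D s / s)`.
-/

set_option linter.unusedSectionVars false
set_option linter.unusedSimpArgs false

namespace Pool.ML55

open Pool.ML

section V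

variable {k : Type} [Field k]

/-- The derivation of the field of Laurent series that acts on the coefficients. -/
noncomputable def cder (δ : Derivation ℤ k k) (f : LaurentSeries k) : LaurentSeries k :=
  HahnSeries.mk (fun n => δ (f.coeff n)) (f.isPWO_support.mono (by
    intro n hn
    rw [Function.mem_support] at hn
    rw [HahnSeries.mem_support]
    intro h
    rw [h, map_zero] at hn
    exact hn rfl))

variable (δ : Derivation ℤ k k)

theorem cder_coeff (f : LaurentSeries k) (n : ℤ) : (cder δ f).coeff n = δ (f.coeff n) := rfl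

theorem cder_add (f g : LaurentSeries k) : cder δ (f + g) = cder δ f + cder δ g := by
  ext n
  simp only [cder_coeff, HahnSeries.coeff_add, map_add]

theorem cder_zero : cder δ (0 : LaurentSeries k) = 0 := by
  ext n
  simp [cder_coeff]

theorem cder_sum {ι : Type*} (s : Finset ι) (f : ι → LaurentSeries k) :
    cder δ (∑ i ∈ s, f i) = ∑ i ∈ s, cder δ (f i) := by
  classical
  induction s using Finset.induction with
  | empty => simp [cder_zero]
  | insert a s ha ih => rw [Finset.sum_insert ha, Finset.sum_insert ha, cder_add, ih]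

theorem support_cder (f : LaurentSeries k) : (cder δ f).support ⊆ f.support := by
  intro n hn
  rw [HahnSeries.mem_support, cder_coeff] at hn
  rw [HahnSeries.mem_support]
  intro h
  rw [h, map_zero] at hn
  exact hn rfl

theorem cder_mul (f g : LaurentSeries k) : cder δ (f * g) = cder δ f * g + f * cder δ g := by
  ext n
  rw [HahnSeries.coeff_add, cder_coeff,
    HahnSeries.coeff_mul_left' f.isPWO_support (support_cder δ f),
    HahnSeries.coeff_mul_right' g.isPWO_support (support_cder δ g), HahnSeries.coeff_mul,
    map_sum, ← Finset.sum_add_distrib]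
  refine Finset.sum_congr rfl fun x _ => ?_
  rw [cder_coeff, cder_coeff, Derivation.leibniz, smul_eq_mul, smul_eq_mul]
  ring

theorem cder_single (n : ℤ) (a : k) :
    cder δ (HahnSeries.single n a : LaurentSeries k) = HahnSeries.single n (δ a) := by
  ext m
  rw [cder_coeff, HahnSeries.coeff_single, HahnSeries.coeff_single]
  split_ifs with h
  · rfl
  · exact map_zero δ

theorem cder_C (a : k) : cder δ (HahnSeries.C a : LaurentSeries k) = HahnSeries.C (δ a) := by
  rw [HahnSeries.C_apply, HahnSeries.C_apply, cder_single]

/-- The coefficientwise derivation of power series. -/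
noncomputable def cderP (F : PowerSeries k) : PowerSeries k :=
  PowerSeries.mk fun n => δ (PowerSeries.coeff n F)

theorem constantCoeff_cderP (F : PowerSeries k) :
    PowerSeries.constantCoeff (cderP δ F) = δ (PowerSeries.constantCoeff F) := by
  rw [← PowerSeries.coeff_zero_eq_constantCoeff_apply, cderP, PowerSeries.coeff_mk,
    PowerSeries.coeff_zero_eq_constantCoeff_apply]

theorem cder_ofPS (F : PowerSeries k) : cder δ (ofPS F) = ofPS (cderP δ F) := by
  ext n
  rw [cder_coeff]
  rcases lt_or_ge n 0 with hn | hn
  · rw [ofPS_coeff_neg _ n hn, ofPS_coeff_neg _ n hn, map_zero]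
  · obtain ⟨m, rfl⟩ := Int.eq_ofNat_of_zero_le hn
    rw [ofPS_coeff, ofPS_coeff, cderP, PowerSeries.coeff_mk]

/-- A nonzero Laurent series is a power of the variable times a power series with nonzero constant
term. -/
theorem exists_unit_part (f : LaurentSeries k) (hf : f ≠ 0) :
    ∃ G : PowerSeries k, PowerSeries.constantCoeff G ≠ 0 ∧
      (HahnSeries.single f.order 1 : LaurentSeries k) * ofPS G = f := by
  refine ⟨f.powerSeriesPart, ?_, LaurentSeries.single_order_mul_powerSeriesPart f⟩
  rw [← PowerSeries.coeff_zero_eq_constantCoeff_apply, LaurentSeries.powerSeriesPart_coeff]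
  simp only [Nat.cast_zero, add_zero]
  rw [Ne, HahnSeries.coeff_order_eq_zero]
  exact hf

/-- The logarithmic derivative is regular. -/
theorem cder_div (f : LaurentSeries k) (hf : f ≠ 0) :
    ∃ H : PowerSeries k, cder δ f / f = ofPS H := by
  obtain ⟨G, hG0, hfG⟩ := exists_unit_part f hf
  have hinv : ofPS G * ofPS G⁻¹ = 1 := by
    rw [← map_mul, PowerSeries.mul_inv_cancel _ hG0, map_one]
  generalize f.order = n at *
  refine ⟨cderP δ G * G⁻¹, ?_⟩
  have h1 : cder δ f = (HahnSeries.single n 1 : LaurentSeries k) * ofPS (cderP δ G) := by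
    conv_lhs => rw [← hfG]
    rw [cder_mul, cder_single, cder_ofPS, Derivation.map_one_eq_zero,
      HahnSeries.single_eq_zero, zero_mul, zero_add]
  rw [div_eq_iff hf, h1, map_mul]
  conv_rhs => rw [← hfG]
  calc (HahnSeries.single n 1 : LaurentSeries k) * ofPS (cderP δ G)
      = (HahnSeries.single n 1 : LaurentSeries k) * ofPS (cderP δ G) *
        (ofPS G * ofPS G⁻¹) := by rw [hinv, mul_one]
    _ = _ := by ring

variable {I : Type*} [Fintype I]

/-- The Euler sum is regular with constant term the weighted sum of the orders. -/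
theorem euler_side (u : I → k) (F : I → LaurentSeries k) (hF : ∀ a, F a ≠ 0) :
    ∃ L : PowerSeries k, ∑ a, HahnSeries.C (u a) * (euler (F a) / F a) = ofPS L ∧
      PowerSeries.constantCoeff L = ∑ a, u a * (((F a).order : ℤ) : k) := by
  choose H hH hH0 using fun a => euler_div (F a) (hF a)
  refine ⟨∑ a, PowerSeries.C (u a) * H a, ?_, ?_⟩
  · rw [map_sum]
    refine Finset.sum_congr rfl fun a _ => ?_
    rw [map_mul, hH, ofPS, HahnSeries.ofPowerSeries_C]
  · rw [map_sum]
    refine Finset.sum_congr rfl fun a _ => ?_
    rw [map_mul, PowerSeries.constantCoeff_C, hH0]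

/-- Rational weights which are independent detect the orders. -/
theorem orders_zero [CharZero k] [Algebra ℚ k] (u : I → k) (hu : LinearIndependent ℚ u)
    (n : I → ℤ) (h : ∑ a, u a * ((n a : ℤ) : k) = 0) : ∀ a, n a = 0 := by
  rw [Fintype.linearIndependent_iff] at hu
  have h2 := hu (fun a => ((n a : ℤ) : ℚ)) (by
    rw [← h]
    refine Finset.sum_congr rfl fun a _ => ?_
    rw [Algebra.smul_def, map_intCast, mul_comm])
  intro a
  exact_mod_cast h2 a

/-- No escape over a point `s₀` which is moved by a derivation of the coefficients. -/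
theorem no_escape_at [CharZero k] [Algebra ℚ k] (u : I → k) (hu : LinearIndependent ℚ u)
    (F : I → LaurentSeries k) (hF : ∀ a, F a ≠ 0) (s h : LaurentSeries k) (S : PowerSeries k)
    (hsS : s = ofPS S) (hs0 : PowerSeries.constantCoeff S ≠ 0)
    (hδ : δ (PowerSeries.constantCoeff S) ≠ 0)
    (hc : ∑ a, HahnSeries.C (u a) * (cder δ (F a) / F a) = h * (cder δ s / s))
    (he : ∑ a, HahnSeries.C (u a) * (euler (F a) / F a) = h * (euler s / s)) :
    (∀ a, (F a).order = 0) ∧ ∃ H : PowerSeries k, h = ofPS H := by
  have hSinv : ofPS S * ofPS S⁻¹ = 1 := by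
    rw [← map_mul, PowerSeries.mul_inv_cancel _ hs0, map_one]
  have hs : s ≠ 0 := by
    rintro rfl
    rw [← hsS, zero_mul] at hSinv
    exact zero_ne_one hSinv
  have hdiv : ∀ x : LaurentSeries k, x / s = x * ofPS S⁻¹ := by
    intro x
    rw [div_eq_iff hs, mul_assoc, hsS, mul_comm (ofPS S⁻¹), hSinv, mul_one]
  have hE0 : PowerSeries.constantCoeff (cderP δ S * S⁻¹) ≠ 0 := by
    rw [map_mul, constantCoeff_cderP]
    refine mul_ne_zero hδ ?_
    rw [PowerSeries.constantCoeff_inv]
    exact inv_ne_zero hs0
  have hEinv : ofPS (cderP δ S * S⁻¹) * ofPS (cderP δ S * S⁻¹)⁻¹ = 1 := by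
    rw [← map_mul, PowerSeries.mul_inv_cancel _ hE0, map_one]
  choose H hH using fun a => cder_div δ (F a) (hF a)
  have h1 : h * ofPS (cderP δ S * S⁻¹) = ofPS (∑ a, PowerSeries.C (u a) * H a) := by
    rw [map_mul, ← cder_ofPS, ← hsS, ← hdiv, ← hc, map_sum]
    refine Finset.sum_congr rfl fun a _ => ?_
    rw [map_mul, ← hH, ofPS, HahnSeries.ofPowerSeries_C]
  have h2 : h = ofPS ((∑ a, PowerSeries.C (u a) * H a) * (cderP δ S * S⁻¹)⁻¹) := by
    rw [map_mul, ← h1, mul_assoc, hEinv, mul_one]
  refine ⟨?_, _, h2⟩
  obtain ⟨L, hL, hL0⟩ := euler_side u F hF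
  have h3 : ofPS L = ofPS (((∑ a, PowerSeries.C (u a) * H a) * (cderP δ S * S⁻¹)⁻¹) *
      (eulerP S * S⁻¹)) := by
    rw [← hL, he, hdiv]
    conv_lhs => rw [h2]
    rw [hsS, euler_ofPS, ← map_mul, ← map_mul]
  have h4 := congrArg PowerSeries.constantCoeff (ofPS_injective h3)
  rw [hL0] at h4
  simp only [map_mul, constantCoeff_eulerP, zero_mul, mul_zero] at h4
  exact orders_zero u hu _ h4

/-- Over a nonzero point: either all unit functions have order zero or the horizontal component has
a pole of the order of `s - s₀`. -/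
theorem pole_at [CharZero k] [Algebra ℚ k] (u : I → k) (hu : LinearIndependent ℚ u)
    (F : I → LaurentSeries k) (hF : ∀ a, F a ≠ 0) (s h : LaurentSeries k) (s₀ : k) (hs₀ : s₀ ≠ 0)
    (hs : 0 < (s - HahnSeries.C s₀).order)
    (he : ∑ a, HahnSeries.C (u a) * (euler (F a) / F a) = h * (euler s / s)) :
    (∀ a, (F a).order = 0) ∨ h.order = -(s - HahnSeries.C s₀).order := by
  obtain ⟨L, hL, hL0⟩ := euler_side u F hF
  by_cases hz : PowerSeries.constantCoeff L = 0
  · left
    rw [hL0] at hz
    exact orders_zero u hu _ hz
  · right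
    set p := s - HahnSeries.C s₀ with hp
    have hsp : s = p + HahnSeries.C s₀ := by rw [hp, sub_add_cancel]
    have hp0 : p ≠ 0 := by
      rintro h0
      rw [h0, HahnSeries.order_zero] at hs
      exact lt_irrefl _ hs
    have hes : euler s = euler p := by rw [hsp, euler_add, euler_C, add_zero]
    obtain ⟨E, hE, hE0⟩ := euler_div p hp0
    have hne : ((p.order : ℤ) : k) ≠ 0 := by
      rw [Ne, Int.cast_eq_zero]
      exact hs.ne'
    -- `s` is a unit
    have hs1 : s ≠ 0 := by
      intro h0
      have h1 : p = -HahnSeries.C s₀ := by rw [hp, h0, zero_sub]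
      rw [h1, HahnSeries.order_neg, HahnSeries.order_C] at hs
      exact lt_irrefl _ hs
    have hso : s.order = 0 := by
      have h1 : s.coeff 0 = s₀ := by
        rw [hsp, HahnSeries.coeff_add, HahnSeries.coeff_eq_zero_of_lt_order hs, zero_add,
          HahnSeries.C_apply, HahnSeries.coeff_single_same]
      apply le_antisymm
      · exact HahnSeries.order_le_of_coeff_ne_zero (by rw [h1]; exact hs₀)
      · have h2 : min p.order (HahnSeries.C s₀ : LaurentSeries k).order ≤ s.order := by
          rw [hsp]
          exact HahnSeries.min_order_le_order_add (by rw [← hsp]; exact hs1)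
        rw [HahnSeries.order_C] at h2
        exact le_trans (le_min hs.le le_rfl) h2
    have hEne : (ofPS E : LaurentSeries k) ≠ 0 := by
      intro h0
      rw [map_eq_zero_iff _ ofPS_injective] at h0
      rw [h0, map_zero] at hE0
      exact hne hE0.symm
    have hEo : (ofPS E : LaurentSeries k).order = 0 := by
      apply le_antisymm
      · apply HahnSeries.order_le_of_coeff_ne_zero
        have h1 := ofPS_coeff E 0
        rw [Nat.cast_zero, PowerSeries.coeff_zero_eq_constantCoeff_apply, hE0] at h1
        rw [h1]
        exact hne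
      · by_contra h1
        push Not at h1
        have h2 := ofPS_coeff_neg E _ h1
        rw [HahnSeries.coeff_order_eq_zero] at h2
        exact hEne h2
    have hLne : (ofPS L : LaurentSeries k) ≠ 0 := by
      intro h0
      rw [map_eq_zero_iff _ ofPS_injective] at h0
      rw [h0, map_zero] at hz
      exact hz rfl
    have hLo : (ofPS L : LaurentSeries k).order = 0 := by
      apply le_antisymm
      · apply HahnSeries.order_le_of_coeff_ne_zero
        have h1 := ofPS_coeff L 0
        rw [Nat.cast_zero, PowerSeries.coeff_zero_eq_constantCoeff_apply] at h1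
        rw [h1]
        exact hz
      · by_contra h1
        push Not at h1
        have h2 := ofPS_coeff_neg L _ h1
        rw [HahnSeries.coeff_order_eq_zero] at h2
        exact hLne h2
    have heq : ofPS L * s = h * (ofPS E * p) := by
      rw [← hL, he, ← hE, hes]
      field_simp
    have hh : h ≠ 0 := by
      rintro rfl
      rw [zero_mul] at heq
      exact mul_ne_zero hLne hs1 heq
    have h5 := congrArg HahnSeries.order heq
    rw [HahnSeries.order_mul hLne hs1, HahnSeries.order_mul hh (mul_ne_zero hEne hp0),
      HahnSeries.order_mul hEne hp0, hLo, hso, hEo] at h5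
    omega

/-- Over `0` and `∞` the horizontal component is regular. -/
theorem regular_at_ends [CharZero k] (u : I → k) (F : I → LaurentSeries k) (hF : ∀ a, F a ≠ 0)
    (s h : LaurentSeries k) (hs : s.order ≠ 0)
    (he : ∑ a, HahnSeries.C (u a) * (euler (F a) / F a) = h * (euler s / s)) :
    ∃ H : PowerSeries k, h = ofPS H := by
  obtain ⟨L, hL, -⟩ := euler_side u F hF
  have hs0 : s ≠ 0 := by
    rintro rfl
    rw [HahnSeries.order_zero] at hs
    exact hs rfl
  obtain ⟨E, hE, hE0⟩ := euler_div s hs0
  have hne : PowerSeries.constantCoeff E ≠ 0 := by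
    rw [hE0, Ne, Int.cast_eq_zero]
    exact hs
  refine ⟨L * E⁻¹, ?_⟩
  rw [map_mul, ← hL, he, hE, mul_assoc, ← map_mul, PowerSeries.mul_inv_cancel _ hne, map_one,
    mul_one]

end V

end Pool.ML55
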